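import Pool.Agent.H752.KM.Stubs
import Pool.Agent.H622R2.CoNP

/-!
# Task K7: the test language is in exponential time
-/

namespace Pool.Agent.H752.KM

open Pool.Agent.NPC Pool.Agent.H620R2.Gauge Pool.Agent.H622R2

namespace K7

/-- the first `m` binary digits of `s` -/
def bitL (m s : ℕ) : List Bool := (List.range m).map (fun i => s.bits.getD i false)

theorem bits_getD (n i : ℕ) : n.bits.getD i false = n.testBit i := by
  rw [Nat.testBit_eq_inth]
  rfl

theorem valB_eq_bit (b : Bool) (l : List Bool) : valB (b :: l) = Nat.bit b (valB l) := by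
  cases b <;> simp [Nat.bit] <;> omega

theorem testBit_valB : ∀ (w : List Bool) (i : ℕ), (valB w).testBit i = w.getD i false
  | [], i => by simp
  | b :: l, 0 => by rw [valB_eq_bit]; simp
  | b :: l, i + 1 => by rw [valB_eq_bit, Nat.testBit_bit_succ, testBit_valB l i]; simp

theorem length_bitL (m s : ℕ) : (bitL m s).length = m := by simp [bitL]

theorem bitL_valB (w : List Bool) : bitL w.length (valB w) = w := by
  apply List.ext_getElem
  · simp [bitL]
  · intro i h1 h2
    simp only [bitL, List.getElem_map, List.getElem_range]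
    rw [bits_getD, testBit_valB, List.getD_eq_getElem _ _ h2]

/-- the question number `r` -/
def qq (m : ℕ) (x : List Bool) (r : ℕ) : List Bool :=
  pairBits x (bitL m (r / (3 * m)) ++ List.replicate (r % (3 * m)) true)

theorem qq_eq (m : ℕ) (x : List Bool) (r : ℕ) :
    qq m x r = qst x (bitL m (r / (3 * m))) (r % (3 * m)) := rfl

/-- the content of a slot -/
def cont (m : ℕ) (a : List Bool) (s : ℕ) : List Bool :=
  (List.range (3 * m)).map (fun i => a.getD (s * (3 * m) + i) false)

/-- is the slot a hit? -/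
def hitB (m : ℕ) (a : List Bool) (s : ℕ) : Bool :=
  decide (valB (cont m a s) * (valB (bitL m s ++ [true]) + 1) < 2 ^ (3 * m))

/-- the verdict -/
def dec (m : ℕ) (a : List Bool) : Bool :=
  (List.range (min (2 ^ m) (a.length + 1))).any (fun s => hitB m a s)

/-- the algorithm -/
noncomputable def DD (P : Polynomial ℕ) (y : List Bool) : List Bool :=
  if 2 ^ (P.eval (unpair y).1.length) * (3 * P.eval (unpair y).1.length) ≤ (unpair y).2.length then
    true :: [dec (P.eval (unpair y).1.length) (unpair y).2]
  else false :: qq (P.eval (unpair y).1.length) (unpair y).1 (unpair y).2.length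

section
variable {α : Type} [TEnc α]

theorem p_two_pow {m : α → ℕ} (hm : UPoly m) : Poly (fun a => 2 ^ m a) := by
  have h1 : Poly (fun a => List.replicate (m a) false) :=
    (NPC.Poly.map (F := fun _ _ => false) hm (NPC.Poly.const false)).congr fun a => by simp
  have h2 := Poly.valBits (Poly.append h1 (NPC.Poly.const [true]))
  exact h2.congr fun a => by rw [valB_replicate_false]; simp

theorem p_bitL {m s : α → ℕ} (hm : UPoly m) (hs : Poly s) : Poly (fun a => bitL (m a) (s a)) := by
  unfold bitL
  refine NPC.Poly.map (F := fun (a : α) (i : ℕ) => (s a).bits.getD i false) hm.range ?_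
  exact Poly.getD (d := fun _ : α × ℕ => false) (Poly.natBits (hs.comp (Poly.fst Poly.id)))
    (Poly.snd Poly.id) (NPC.Poly.const false)

theorem p_replicate {n : α → ℕ} (hn : UPoly n) : Poly (fun a => List.replicate (n a) true) :=
  (NPC.Poly.map (F := fun _ _ => true) hn (NPC.Poly.const true)).congr fun a => by simp

theorem p_qq {m r : α → ℕ} {x : α → List Bool} (hm : UPoly m) (hx : Poly x) (hr : UPoly r) :
    Poly (fun a => qq (m a) (x a) (r a)) := by
  unfold qq
  have h3 : UPoly (fun a => 3 * m a) := (UPoly.const 3).mul hm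
  refine poly_pairBits hx (Poly.append (p_bitL hm (Poly.div hr.toPoly h3.toPoly)) (p_replicate ?_))
  exact UPoly.of_le (Poly.mod hr.toPoly h3.toPoly) hr fun a => Nat.mod_le _ _

theorem p_cont {m s : α → ℕ} {l : α → List Bool} (hm : UPoly m) (hl : Poly l) (hs : Poly s) :
    Poly (fun a => cont (m a) (l a) (s a)) := by
  unfold cont
  have h3 : UPoly (fun a => 3 * m a) := (UPoly.const 3).mul hm
  refine NPC.Poly.map (F := fun (a : α) (i : ℕ) => (l a).getD (s a * (3 * m a) + i) false)
    h3.range ?_
  exact Poly.getD (d := fun _ : α × ℕ => false) (hl.comp (Poly.fst Poly.id))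
    (Poly.add (Poly.mul (hs.comp (Poly.fst Poly.id)) (h3.toPoly.comp (Poly.fst Poly.id)))
      (Poly.snd Poly.id)) (NPC.Poly.const false)

theorem p_hitB {m s : α → ℕ} {l : α → List Bool} (hm : UPoly m) (hl : Poly l) (hs : Poly s) :
    Poly (fun a => hitB (m a) (l a) (s a)) := by
  unfold hitB
  have h3 : UPoly (fun a => 3 * m a) := (UPoly.const 3).mul hm
  exact Poly.decide_lt (Poly.mul (Poly.valBits (p_cont hm hl hs))
    (Poly.add (Poly.valBits (Poly.append (p_bitL hm hs) (NPC.Poly.const [true])))
      (NPC.Poly.const 1))) (p_two_pow h3)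

theorem p_dec {m : α → ℕ} {l : α → List Bool} (hm : UPoly m) (hl : Poly l) :
    Poly (fun a => dec (m a) (l a)) := by
  unfold dec
  have h1 : UPoly (fun a => (l a).length + 1) := (UPoly.length hl).add (UPoly.const 1)
  have h2 : UPoly (fun a => min (2 ^ m a) ((l a).length + 1)) :=
    UPoly.of_le (Poly.min (p_two_pow hm) h1.toPoly) h1 fun a => min_le_right _ _
  refine Poly.any (p := fun (a : α) (s : ℕ) => hitB (m a) (l a) s) h2.range ?_
  exact p_hitB (α := α × ℕ) (hm.comp (Poly.fst Poly.id)) (hl.comp (Poly.fst Poly.id))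
    (Poly.snd Poly.id)

end

theorem poly_DD (P : Polynomial ℕ) : Poly (DD P) := by
  have hx : Poly (fun y => (unpair y).1) := Poly.fst poly_unpair
  have ha : Poly (fun y => (unpair y).2) := Poly.snd poly_unpair
  have hm : UPoly (fun y => P.eval (unpair y).1.length) := (UPoly.length hx).eval P
  have hl : UPoly (fun y => (unpair y).2.length) := UPoly.length ha
  unfold DD
  refine Poly.ite (Poly.decide_le (Poly.mul (p_two_pow hm)
    ((UPoly.const 3).mul hm).toPoly) hl.toPoly) ?_ ?_
  · exact Poly.cons (NPC.Poly.const true) (Poly.cons (p_dec hm ha) (NPC.Poly.const []))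
  · exact Poly.cons (NPC.Poly.const false) (p_qq hm hx hl)

/-- the algorithm -/
noncomputable def MM (P : Polynomial ℕ) : Alg where
  D := DD P
  poly := polyTime_of_poly_list (poly_DD P)
  p := 0

/-- the answers to the first `r` questions -/
def ans (A : Oracle) (m : ℕ) (x : List Bool) (r : ℕ) : List Bool :=
  (List.range r).map (fun j => A (qq m x j))

theorem length_ans (A : Oracle) (m : ℕ) (x : List Bool) (r : ℕ) : (ans A m x r).length = r := by
  simp [ans]

theorem ans_succ (A : Oracle) (m : ℕ) (x : List Bool) (r : ℕ) :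
    ans A m x r ++ [A (qq m x r)] = ans A m x (r + 1) := by
  simp [ans, List.range_succ]

theorem run_eq (P : Polynomial ℕ) (A : Oracle) (x : List Bool) : ∀ (T r : ℕ),
    r ≤ 2 ^ (P.eval x.length) * (3 * P.eval x.length) →
    2 ^ (P.eval x.length) * (3 * P.eval x.length) + 1 ≤ r + T →
    (MM P).run A x T (ans A (P.eval x.length) x r) =
      some [dec (P.eval x.length)
        (ans A (P.eval x.length) x (2 ^ (P.eval x.length) * (3 * P.eval x.length)))] := by
  intro T
  induction T with
  | zero => intro r h1 h2; omega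
  | succ T ih =>
    intro r h1 h2
    rw [Alg.run]
    change (match DD P (pairBits x _) with | [] => _ | true :: z => _ | false :: q => _) = _
    unfold DD
    rw [unpair_pairBits]
    simp only [length_ans]
    by_cases h : 2 ^ (P.eval x.length) * (3 * P.eval x.length) ≤ r
    · rw [if_pos h]
      have : r = 2 ^ (P.eval x.length) * (3 * P.eval x.length) := le_antisymm h1 h
      subst this
      rfl
    · rw [if_neg h]
      change (MM P).run A x T (ans A (P.eval x.length) x r ++ [A (qq (P.eval x.length) x r)]) = _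
      rw [ans_succ]
      exact ih (r + 1) (by omega) (by omega)

theorem cont_ans (A : Oracle) (m : ℕ) (x : List Bool) {s : ℕ} (hs : s < 2 ^ m) :
    cont m (ans A m x (2 ^ m * (3 * m))) s =
      (List.range (3 * m)).map (fun i => A (qst x (bitL m s) i)) := by
  unfold cont
  refine List.map_congr_left fun i hi => ?_
  rw [List.mem_range] at hi
  have h1 : s * (3 * m) + i < 2 ^ m * (3 * m) := by
    calc s * (3 * m) + i < s * (3 * m) + 3 * m := by omega
      _ = (s + 1) * (3 * m) := by ring
      _ ≤ 2 ^ m * (3 * m) := Nat.mul_le_mul_right _ hs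
  rw [List.getD_eq_getElem _ _ (by rw [length_ans]; exact h1)]
  simp only [ans, List.getElem_map, List.getElem_range]
  rw [qq_eq]
  have h2 : (s * (3 * m) + i) / (3 * m) = s := by
    rw [Nat.add_comm, Nat.add_mul_div_right _ _ (by omega), Nat.div_eq_of_lt hi, zero_add]
  have h3 : (s * (3 * m) + i) % (3 * m) = i := by
    rw [Nat.add_comm, Nat.add_mul_mod_self_right, Nat.mod_eq_of_lt hi]
  rw [h2, h3]

theorem dec_iff (P : Polynomial ℕ) (A : Oracle) (x : List Bool) :
    dec (P.eval x.length)
        (ans A (P.eval x.length) x (2 ^ (P.eval x.length) * (3 * P.eval x.length))) = true ↔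
      x ∈ TL P A := by
  set m := P.eval x.length with hm
  unfold dec
  rw [length_ans]
  have hmin : min (2 ^ m) (2 ^ m * (3 * m) + 1) = 2 ^ m := by
    rcases Nat.eq_zero_or_pos m with h | h
    · rw [h]; simp
    · have : 2 ^ m ≤ 2 ^ m * (3 * m) := Nat.le_mul_of_pos_right _ (by omega)
      omega
  rw [hmin, List.any_eq_true]
  constructor
  · rintro ⟨s, hs, h⟩
    rw [List.mem_range] at hs
    refine ⟨bitL m s, length_bitL m s, ?_⟩
    unfold hitB at h
    rw [decide_eq_true_eq, cont_ans A m x hs] at h
    exact h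
  · rintro ⟨w, hw, h⟩
    rw [← hm] at hw h
    have hs : valB w < 2 ^ m := by rw [← hw]; exact valB_lt w
    refine ⟨valB w, List.mem_range.2 hs, ?_⟩
    have hb : bitL m (valB w) = w := by rw [← hw]; exact bitL_valB w
    unfold hitB
    rw [decide_eq_true_eq, cont_ans A m x hs, hb]
    exact h

theorem bound (m : ℕ) : 2 ^ m * (3 * m) + 1 ≤ 2 ^ (4 * m) := by
  have h1 : 3 * m + 1 ≤ 2 ^ (3 * m) := Nat.lt_two_pow_self
  have h2 : 1 ≤ 2 ^ m := Nat.one_le_two_pow
  calc 2 ^ m * (3 * m) + 1 ≤ 2 ^ m * (3 * m + 1) := by rw [Nat.mul_add]; omega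
    _ ≤ 2 ^ m * 2 ^ (3 * m) := Nat.mul_le_mul_left _ h1
    _ = 2 ^ (4 * m) := by rw [← pow_add]; congr 1; ring

theorem dtime (P : Polynomial ℕ) (A : Oracle) (T : Set (ℕ → ℕ)) (t : ℕ → ℕ) (ht : t ∈ T)
    (h : ∀ n, 2 ^ (P.eval n) * (3 * P.eval n) + 1 ≤ t n) : DTime T A (TL P A) := by
  refine ⟨fun x => [dec (P.eval x.length)
    (ans A (P.eval x.length) x (2 ^ (P.eval x.length) * (3 * P.eval x.length)))],
    ⟨MM P, t, ht, fun x => ?_⟩, fun x => ?_⟩
  · have := run_eq P A x (t x.length) 0 (Nat.zero_le _) (by rw [zero_add]; exact h _)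
    exact this
  · rw [← dec_iff P A x]
    simp

end K7

theorem t_exp : St_exp := by
  intro P A
  refine ⟨?_, fun c hc => ?_⟩
  · refine K7.dtime P A _ (fun n => 2 ^ (4 * P).eval n) ⟨4 * P, rfl⟩ fun n => ?_
    have := K7.bound (P.eval n)
    simpa using this
  · refine K7.dtime P A _ (fun n => 2 ^ (4 * c * (n + 1))) ⟨4 * c, rfl⟩ fun n => ?_
    refine (K7.bound (P.eval n)).trans (Nat.pow_le_pow_right (by norm_num) ?_)
    rw [Nat.mul_assoc]
    exact Nat.mul_le_mul_left _ (hc n)

end Pool.Agent.H752.KM
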